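import Pool.Agent.H622R2.AcycSTRed
import Pool.Agent.NPC.Sat

/-!
# Acyclic orientations with two-terminal edge-connectivity are NP-hard to find

An instance of ACYC-ST is a multigraph with vertices `V : List ℕ` and edges `E : List MEdge`
(an edge is a label together with its two ends), two vertices `s`, `t` and a number `k`.  The
question is whether some acyclic orientation has, for every other vertex `v`, `k` pairwise
edge-disjoint directed paths from `s` to `v` and from `v` to `t`.

The reduction from 3SAT produces instances with `k = 4`: parallel edges to `s` and `t` turn the
condition into lower bounds for the in-degree and the out-degree of each vertex, a hub vertex has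
to be reached from every clause vertex and to reach every variable vertex, and a clause vertex
must be reached from a literal that is not reached from its variable vertex.
-/

namespace Pool.Agent.Results.MP_5d404d_lc.AcycSTNPHard

open Pool.Agent.NPC Pool.Agent.H622R2

/-- ACYC-ST is `NP`-hard under polynomial-time many-one reductions. -/
theorem result : NPHardP (fun I : List ℕ × List MEdge × ℕ × ℕ × ℕ => AcycST I) :=
  (HardI.trans (Q := fun I : List ℕ × List MEdge × ℕ × ℕ × ℕ => AcycST I) hardI_SAT3
    Acyc.acRed_poly (fun φ => Acyc.acRed_correct φ)).toNPHardP

end Pool.Agent.Results.MP_5d404d_lc.AcycSTNPHard
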